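import Pool.Agent.MHP.Stmts

/-!
# Row CRD of squad MHP: signs and orders
-/

set_option autoImplicit false

namespace Pool.Agent.MHP.H86

open Pool.Agent.MHP

section
variable {J : Type} [Fintype J] [DecidableEq J]

theorem swap_mem {j k : J} (h : j ≠ k) (g : Equiv.Perm J) :
    Equiv.swap j k * g ∈ SG J (-1) ↔ g ∈ SG J 1 := by
  show Equiv.Perm.sign (Equiv.swap j k * g) = -1 ↔ Equiv.Perm.sign g = 1
  rw [Equiv.Perm.sign_mul, Equiv.Perm.sign_swap h]
  constructor
  · intro h1
    have h2 : -(Equiv.Perm.sign g) = -1 := by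
      rw [← h1, neg_one_mul]
    exact neg_injective h2
  · intro h1
    rw [h1, mul_one]

/-- the bijection of the two sign classes -/
def eS {j k : J} (h : j ≠ k) : SG J 1 ≃ SG J (-1) where
  toFun g := ⟨Equiv.swap j k * g.1, (swap_mem h g.1).2 g.2⟩
  invFun g := ⟨Equiv.swap j k * g.1, (swap_mem h _).1 (by
    rw [← mul_assoc, Equiv.swap_mul_self, one_mul]
    exact g.2)⟩
  left_inv g := Subtype.ext (by
    show Equiv.swap j k * (Equiv.swap j k * g.1) = g.1
    rw [← mul_assoc, Equiv.swap_mul_self, one_mul])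
  right_inv g := Subtype.ext (by
    show Equiv.swap j k * (Equiv.swap j k * g.1) = g.1
    rw [← mul_assoc, Equiv.swap_mul_self, one_mul])

/-- the bijection of the core labels -/
def eC (T : ℕ) {j k : J} (h : j ≠ k) : CX T (SG J 1) ≃ CX T (SG J (-1)) :=
  Equiv.optionCongr (Equiv.prodCongr (eS h) (Equiv.refl _))

theorem lf_eC (T B : ℕ) {j k : J} (h : j ≠ k) (c : CX T (SG J 1)) :
    lf T B (SG J 1) c = lf T B (SG J (-1)) (eC T h c) := by
  rcases c with _ | ⟨g, x⟩ <;> rfl

end

/-- **CRD.** -/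
theorem crd : CrdStmt := by
  intro J _ _ _ T B U _
  obtain ⟨j, k, hjk⟩ := exists_pair_ne J
  refine ⟨?_, ?_, ⟨1, ?_⟩, ⟨Equiv.swap j k, Equiv.Perm.sign_swap hjk⟩, ?_, ?_⟩
  · refine Nat.card_congr (Equiv.sumCongr (Equiv.sigmaCongr (eC T hjk) fun c =>
      Equiv.optionCongr (finCongr (lf_eC T B hjk c))) (Equiv.refl U))
  · have h1 : Nat.card (Fin B) ≤ Nat.card (Ver T B (SG J 1) U) := by
      refine Nat.card_le_card_of_injective
        (fun t : Fin B => (Sum.inl ⟨none, some t⟩ : Ver T B (SG J 1) U)) ?_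
      intro s t hst
      have h2 := Sum.inl_injective hst
      have h3 := eq_of_heq (Sigma.mk.inj h2).2
      exact Option.some_injective _ h3
    rwa [Nat.card_fin] at h1
  · show Equiv.Perm.sign (1 : Equiv.Perm J) = 1
    exact Equiv.Perm.sign_one
  · intro h
    have h1 : (1 : Equiv.Perm J) ∈ SG J (-1) := by
      rw [← h]
      exact Equiv.Perm.sign_one
    have h2 : Equiv.Perm.sign (1 : Equiv.Perm J) = -1 := h1
    rw [Equiv.Perm.sign_one] at h2
    exact absurd h2 (by decide)
  · intro a b hab g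
    exact swap_mem hab g

end Pool.Agent.MHP.H86
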